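import Pool.Agent.RFL.Final

/-!
MP_a9b8e6_ag, Q1: the containment `J^(2r-1) ⊆ J^r`, `r ≥ 3`, for the singular locus of the
reflection arrangement of every finite complex reflection group.
-/

open MvPolynomial

noncomputable section

namespace Pool.Agent.Results.MP_a9b8e6_ag.ReflectionArrangements

/-- The reflection arrangement of `G ≤ GL_n(ℂ)`: the hyperplanes of `ℂ^n` fixed pointwise by some
element of `G` other than the identity (that is, by a reflection in `G`). -/
def arrangement {n : ℕ} (G : Subgroup (GL (Fin n) ℂ)) : Set (Submodule ℂ (Fin n → ℂ)) :=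
  {H | Module.finrank ℂ H + 1 = n ∧
    ∃ g ∈ G, g ≠ 1 ∧ ∀ x ∈ H, (g : Matrix (Fin n) (Fin n) ℂ).mulVec x = x}

/-- `I(X)`: the ideal of the polynomials that vanish on the linear subspace `X`. -/
def idealOf {n : ℕ} (X : Submodule ℂ (Fin n → ℂ)) : Ideal (MvPolynomial (Fin n) ℂ) :=
  vanishingIdeal ℂ (X : Set (Fin n → ℂ))

/-- `J(A)^(m)`: the intersection of the `I(H ∩ H')^m` over all pairs of distinct hyperplanes
`H, H'` of the reflection arrangement of `G`. -/
def symbolicPower {n : ℕ} (G : Subgroup (GL (Fin n) ℂ)) (m : ℕ) :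
    Ideal (MvPolynomial (Fin n) ℂ) :=
  ⨅ (H ∈ arrangement G) (H' ∈ arrangement G) (_ : H ≠ H'), (idealOf (H ⊓ H')) ^ m

/-- `J(A)`: the radical ideal of the singular locus, the intersection of the `I(H ∩ H')`. -/
def singularIdeal {n : ℕ} (G : Subgroup (GL (Fin n) ℂ)) : Ideal (MvPolynomial (Fin n) ℂ) :=
  ⨅ (H ∈ arrangement G) (H' ∈ arrangement G) (_ : H ≠ H'), idealOf (H ⊓ H')

/-- For every finite group `G ≤ GL_n(ℂ)`, in particular for every finite complex reflection group,
and every `r ≥ 3`: `J(A)^(2r-1) ⊆ J(A)^r` for the reflection arrangement `A` of `G`. -/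
theorem result {n : ℕ} (G : Subgroup (GL (Fin n) ℂ)) [Finite G] (r : ℕ) (hr : 3 ≤ r) :
    symbolicPower G (2 * r - 1) ≤ singularIdeal G ^ r :=
  RFL.final G r hr

end Pool.Agent.Results.MP_a9b8e6_ag.ReflectionArrangements
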